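import Pool.Agent.TH762.WD.PtrLaw

/-!
# LOGDCFL is contained in L (in NL) iff L (NL) can name wrong values of functions in LOGDCFL

We work with predicates and functions of a word over an alphabet of `m` symbols and of natural
numbers in unary. `LF` is the smallest class of functions which contains the zero function, the
successor, the projections, `(x + 1) * (y + 1)`, the length of the word and its symbols, and is
closed under composition and limited recursion (logarithmic space). `DF` is the smallest such class
which is closed under recursion by pointers with logarithmically many steps: `F (t + 1, i, v)` is
computed from `x = F (t, i, v)` and `F (t, p (x, t, i, v), v)`, where the number of steps is at most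
`T v` and `2 ^ T v` is bounded by a function of the class. By the characterization of LOGDCFL by
parallel machines with owned cells in logarithmic time (Dymond, Ruzzo) its predicates `Pd DF` are
LOGDCFL, the class of languages which are reducible to deterministic context-free languages in
logarithmic space. `Pd LF` is L, and `NR (Pd LF)` is NL: the predicates which say that a path leads
from `0` to `1` in a graph on the numbers up to a polynomial whose edges are in L.

Theorem: LOGDCFL is contained in L if and only if for some constant `k` for each function `f` of
a word and a number with values `0, ..., k` in LOGDCFL there is a function `g` with values `0, ..., k`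
in L with `g ≠ f` everywhere, and the same for NL. For `k = 1` this is the same as computing `f`.

Proof: the values at `k` places of a recursion are coded by a number; for any `k + 1` codes the
number of those codes which are at most the true one is a function with values `0, ..., k`, so one
of the codes is excluded. So there is a list of at most `k` candidates for the values at any `k`
places. By `MC.world` for some `d < k` there are `k - d - 1` places such that their true values
together with the value at one further place survive the extensions by `d` places in exactly one way.
By bounded quantifiers one guesses the values at the `k - d - 1` places, and checks with the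
recursion whether the values which they give are right.
-/

set_option autoImplicit false

namespace Pool.Agent.Results.MP_9277c3_lc.AvoidedPointer

open Pool.Agent.TH762.WD

/-- (1) LOGDCFL is contained in L iff for some `k` the functions in LOGDCFL with values `0..k` are
avoided by L; (2) the same for NL. -/
theorem result (m : ℕ) :
    ((∀ (n : ℕ) (R : List (Fin m) → (Fin n → ℕ) → Prop), R ∈ Pd DF n → R ∈ Pd LF n) ↔
      ∃ k : ℕ, Avoid (W := List (Fin m)) DF (Pd LF) k) ∧
    ((∀ (n : ℕ) (R : List (Fin m) → (Fin n → ℕ) → Prop), R ∈ Pd DF n → R ∈ NR (Pd LF) n) ↔
      ∃ k : ℕ, Avoid (W := List (Fin m)) DF (NR (Pd LF)) k) :=
  ⟨law_DF (clo_Pd fcl_LF) (inp_Pd fcl_LF), law_DF (clo_NR (clo_Pd fcl_LF)) (inp_NR fcl_LF)⟩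

end Pool.Agent.Results.MP_9277c3_lc.AvoidedPointer
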