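import Pool.Agent.TH679.MW.Brk
import Pool.Agent.TH679.MW.FewBS

set_option autoImplicit false

/-!
# A real-time deterministic one-way pushdown language which is hard for decomposable programs with few registers

The automaton `brk` is a deterministic one-way pushdown automaton which makes one step for each
letter.  It accepts the words over neutral letters and brackets of two types which are correctly
matched.

A program has `K` registers with values in a commutative semiring `F` and the instructions `load` (an
arbitrary function of the letters at some positions), `lin` (a linear combination of registers) and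
`mul` (a product of two registers); the registers start with `0`.  It accepts a word if the value of
the output register is not `0`.  Over the natural numbers this is nondeterminism (linear
combinations) and conjunction (products), over fields there are cancellations.  We look at programs
in which the two factors of a product never both depend on the same position.  There are programs of
this kind of polynomial size.

With at most `n ^ (1/2 - ε)` registers more than `n ^ (c log log n)` steps are necessary, and more
than `n ^ (c log n)` steps if one factor of each product has read at most `n ^ (1 - ε)` positions, for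
instance in branching programs (nondeterminism without conjunctions).

Proof idea.  The value of the output register is written as a sum of few products of functions of
disjoint sets of many positions (`Pool.Agent.TH679.MW`: heavy paths, cut at dyadic times), which do
not depend on the word.  Take a random half `Y` of the positions.  A stack which contains positions
of only one of the two kinds at each time matches each position in `Y` with a position not in `Y`;
with this pattern of opening and closing brackets the language has full rank, but each of the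
products has small rank.
-/

namespace Pool.Agent.Results.MP_9277c3_lc.BracketsFewRegisters

open Finset Pool.Agent.TH679.MW Pool.Agent.TH708.Ari Pool.Agent.TH708.Nar Filter
open Pool.Agent.H561R2.CF (RDPDA)

/-- The programs over `F` for the words of length `n` which accept by a value different from `0`,
have no product both factors of which have read the same position, load only functions of at most
`n ^ (1 - ε)` positions and have at most `n ^ (1 / 2 - ε)` registers have more than
`n ^ (ε / 128 * log (log n))` steps. -/
def Hard (F : Type) [CommSemiring F] (ε : ℝ) (n : ℕ) : Prop :=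
  ∀ (K L : ℕ) (P : ℕ → Instr F (Fin n) Br K) (out : Fin K),
    (∀ w : Fin n → Br, run P w L out ≠ 0 ↔ List.ofFn w ∈ brk.language) →
    Multilinear P L (fun _ => True) →
    (∀ t < L, ∀ d S f, P t = .load d S f → (S.card : ℝ) ≤ (n : ℝ) ^ (1 - ε)) →
    (K : ℝ) ≤ (n : ℝ) ^ (1 / 2 - ε) →
    (n : ℝ) ^ (ε / 128 * Real.log (Real.log n)) < L

/-- The programs as in `Hard` in which, moreover, one factor of each product has read at most
`n ^ (1 - ε)` positions (for instance branching programs) have more than
`n ^ (ε ^ 2 / 256 * log n)` steps. -/
def HardSkew (F : Type) [CommSemiring F] (ε : ℝ) (n : ℕ) : Prop :=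
  ∀ (K L : ℕ) (P : ℕ → Instr F (Fin n) Br K) (out : Fin K),
    (∀ w : Fin n → Br, run P w L out ≠ 0 ↔ List.ofFn w ∈ brk.language) →
    Multilinear P L (fun _ => True) →
    (∀ t < L, ∀ d S f, P t = .load d S f → (S.card : ℝ) ≤ (n : ℝ) ^ (1 - ε)) →
    (∀ t < L, ∀ d a b, P t = .mul d a b →
      ((vars P t a).card : ℝ) ≤ (n : ℝ) ^ (1 - ε) ∨ ((vars P t b).card : ℝ) ≤ (n : ℝ) ^ (1 - ε)) →
    (K : ℝ) ≤ (n : ℝ) ^ (1 / 2 - ε) →
    (n : ℝ) ^ (ε ^ 2 / 256 * Real.log n) < L

variable {h pad : ℕ}

/-- The letter at a position. -/
def ltr (Y : Finset (Fin (2 * h))) (x : Fin (2 * h) → Bool) (v : Fin (2 * h)) : Br :=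
  if v ∈ ops Y [] (List.finRange (2 * h)) then .op (x v) else .cl (x v)

/-- The word. -/
def wd (h pad : ℕ) (Y : Finset (Fin (2 * h))) (x : Fin (2 * h) → Bool) :
    Fin (2 * h + pad) → Br :=
  Fin.append (ltr Y x) fun _ => .nt

theorem wd_subst (Y : Finset (Fin (2 * h))) :
    Subst (Fin.castAdd pad) (wd h pad Y) := by
  intro x x' i
  refine Fin.addCases (fun i => ?_) (fun i => ?_) i
  · intro hx
    have := hx i rfl
    simp only [wd, Fin.append_left, ltr, this]
  · intro _
    simp only [wd, Fin.append_right]

theorem wd_mem (Y : Finset (Fin (2 * h))) (hY : Y.card = h) (x : Fin (2 * h) → Bool) :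
    List.ofFn (wd h pad Y x) ∈ brk.language ↔
      ∀ p ∈ prs Y [] (List.finRange (2 * h)), x p.1 = x p.2 := by
  have hn := List.nodup_finRange (2 * h)
  have h1 : List.ofFn (wd h pad Y x) = wdB Y x [] (List.finRange (2 * h)) ++
      List.replicate pad Br.nt := by
    rw [wdB_map Y x _ _ hn]
    simp only [wd, List.ofFn_fin_append, List.ofFn_const]
    rw [List.ofFn_eq_map]
    rfl
  have h2 : opn Y [] (List.finRange (2 * h)) = [] := by
    apply opn_nil
    · simp
    · rw [List.nil_append]
      have e1 : (List.finRange (2 * h)).countP (fun v => decide (v ∈ Y)) = h := by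
        rw [List.countP_eq_length_filter, ← List.toFinset_card_of_nodup (hn.filter _)]
        conv_rhs => rw [← hY]
        congr 1
        ext v
        simp
      have e2 : (List.finRange (2 * h)).countP (fun v => decide (v ∉ Y)) = h := by
        rw [List.countP_eq_length_filter, ← List.toFinset_card_of_nodup (hn.filter _)]
        have : ((List.finRange (2 * h)).filter fun v => decide (v ∉ Y)).toFinset = univ \ Y := by
          ext v
          simp
        rw [this, card_sdiff_of_subset (subset_univ _), card_univ, Fintype.card_fin, hY]
        omega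
      rw [e1, e2]
  have h3 := brk_run Y x (List.finRange (2 * h)) []
  rw [h2] at h3
  have h4 : brk.run (brk.start, []) (List.ofFn (wd h pad Y x)) =
      if (∀ p ∈ prs Y [] (List.finRange (2 * h)), x p.1 = x p.2) then some (true, []) else none := by
    rw [h1, brk_run_append]
    have h5 : brk.run (brk.start, []) (wdB Y x [] (List.finRange (2 * h))) = _ := h3
    rw [h5]
    split_ifs with h6
    · exact brk_neutral pad _
    · rfl
  constructor
  · rintro ⟨c, hc, _⟩
    rw [h4] at hc
    by_contra h6
    rw [if_neg h6] at hc
    exact absurd hc (by simp)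
  · intro h6
    rw [if_pos h6] at h4
    exact ⟨_, h4, rfl⟩

theorem tr_card (S : Finset (Fin (2 * h + pad))) :
    (tr (Fin.castAdd pad : Fin (2 * h) → Fin (2 * h + pad)) S).card ≤ S.card := by
  apply card_le_card_of_injOn (Fin.castAdd pad)
  · intro v hv
    rw [mem_coe, mem_tr] at hv
    exact hv
  · exact (Fin.castAdd_injective _ _).injOn

theorem full {F : Type} [CommSemiring F] (hF : Faithful F) {K L : ℕ}
    (P : ℕ → Instr F (Fin (2 * h + pad)) Br K) (out : Fin K)
    (hacc : ∀ w, run P w L out ≠ 0 ↔ List.ofFn w ∈ brk.language)
    (Y : Finset (Fin (2 * h))) (hY : Y.card = h) :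
    ∃ (Act : Finset (Fin (2 * h))) (m : ℕ) (pt : (Fin (2 * h) → Bool) → Fin (2 * h + pad) → Br),
      Subst (Fin.castAdd pad) pt ∧
      (∀ x x' : Fin (2 * h) → Bool, (∀ v ∈ Act, x v = x' v) → pt x = pt x') ∧
      Act.card ≤ 2 * m ∧ (∀ r, SRk Y r (fun x => run P (pt x) L out) → 2 ^ m ≤ r) ∧
      ∀ (ν : ℕ) (D : Finset (Fin (2 * h))), Near (2 * ν) (D ∩ Act) Y →
        Cent (4 * ν) D.card (Y ∩ D) := by
  refine ⟨univ, h, wd h pad Y, wd_subst _, fun x x' hx => by
    rw [show x = x' from funext fun v => hx v (mem_univ v)], by
    rw [card_univ, Fintype.card_fin], fun r hr => ?_, fun ν D hD => ?_⟩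
  · have hn := List.nodup_finRange (2 * h)
    have hsol : ∀ c : ↥Y → Bool, ∃ x : Fin (2 * h) → Bool, (∀ v : ↥Y, x v.1 = c v) ∧
        ∀ p ∈ prs Y [] (List.finRange (2 * h)), x p.1 = x p.2 := by
      intro c
      obtain ⟨x, h1, h2, _⟩ := sol Y (List.finRange (2 * h)) [] (by simpa using hn)
        (fun v => if hv : v ∈ Y then c ⟨v, hv⟩ else false)
      refine ⟨x, fun v => ?_, h2⟩
      rw [h1 v.1 v.2, dif_pos v.2]
    choose X hX1 hX2 using hsol
    have h1 := diag_rank hF Y (ι := ↥Y → Bool) X X
      (fun x => run P (wd h pad Y x) L out) (fun c c' => ?_) hr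
    · rw [Fintype.card_fun, Fintype.card_bool, Fintype.card_coe, hY] at h1
      exact h1
    · rw [hacc, wd_mem Y hY]
      constructor
      · intro hall
        have hopn : opn Y [] (List.finRange (2 * h)) = [] := by
          apply opn_nil
          · simp
          · rw [List.nil_append]
            have e1 : (List.finRange (2 * h)).countP (fun v => decide (v ∈ Y)) = h := by
              rw [List.countP_eq_length_filter, ← List.toFinset_card_of_nodup (hn.filter _)]
              conv_rhs => rw [← hY]
              congr 1
              ext v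
              simp
            have e2 : (List.finRange (2 * h)).countP (fun v => decide (v ∉ Y)) = h := by
              rw [List.countP_eq_length_filter, ← List.toFinset_card_of_nodup (hn.filter _)]
              have : ((List.finRange (2 * h)).filter fun v => decide (v ∉ Y)).toFinset =
                  univ \ Y := by
                ext v
                simp
              rw [this, card_sdiff_of_subset (subset_univ _), card_univ, Fintype.card_fin, hY]
              omega
            rw [e1, e2]
        funext y
        rcases prs_cover Y (List.finRange (2 * h)) [] y.1 (by simp) with h1 | ⟨p, hp, h1⟩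
        · rw [hopn] at h1
          exact absurd h1 (by simp)
        · have h2 := hall p hp
          have h3 := (prs_mem Y _ _ p hp).2.2
          have h4 := hX2 c' p hp
          rcases h1 with h1 | h1
          · have h5 : p.1 ∈ Y := h1 ▸ y.2
            rw [if_pos h5, if_neg (h3.1 h5), ← h4, ← h1, hX1, hX1] at h2
            exact h2
          · have h5 : p.2 ∈ Y := h1 ▸ y.2
            have h6 : p.1 ∉ Y := fun h' => h3.1 h' h5
            rw [if_neg h6, if_pos h5, h4, ← h1, hX1, hX1] at h2
            exact h2.symm
      · rintro rfl p hp
        have := hX2 c p hp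
        simpa using this
  · rw [inter_univ] at hD
    unfold Near at hD
    unfold Cent
    rw [inter_comm Y D]
    omega

theorem law (ε : ℝ) (hε : 0 < ε) (hε1 : ε ≤ 1 / 2) : ∃ n₀ : ℕ, ∀ n ≥ n₀, ∀ (F : Type)
    [CommSemiring F], Faithful F → Hard F ε n ∧ HardSkew F ε n := by
  obtain ⟨h₀, hfew⟩ := fewB (ε / 2) (by linarith) (by linarith)
  obtain ⟨h₁, hfewS⟩ := fewBS (ε / 2) (by linarith) (by linarith)
  have ht : Tendsto (fun N : ℕ => (N : ℝ) ^ (ε / 2)) atTop atTop :=
    (tendsto_rpow_atTop (by linarith)).comp tendsto_natCast_atTop_atTop
  obtain ⟨N₀, hN₀⟩ := eventually_atTop.1 (ht.eventually_ge_atTop 2)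
  refine ⟨2 * h₀ + 2 * h₁ + N₀ + 10, fun n hn F _ hF => ?_⟩
  obtain ⟨h, pad, hp, rfl⟩ : ∃ h pad, pad ≤ 1 ∧ n = 2 * h + pad :=
    ⟨n / 2, n % 2, by omega, by omega⟩
  obtain ⟨t1, t2, t3⟩ := transfer hε hε1 (n := 2 * h + pad) (N := 2 * h) (by omega)
    (by omega) (by omega) (hN₀ _ (by omega))
  have t4 := transferS hε (n := 2 * h + pad) (N := 2 * h) (by omega) (by omega) (by omega)
  have hle : ∀ S : Finset (Fin (2 * h + pad)),
      (S.card : ℝ) ≤ ((2 * h + pad : ℕ) : ℝ) ^ (1 - ε) →
      ((tr (Fin.castAdd pad : Fin (2 * h) → Fin (2 * h + pad)) S).card : ℝ) ≤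
        ((2 * h : ℕ) : ℝ) ^ (1 - ε / 2) := by
    intro S hS
    exact le_trans (by exact_mod_cast tr_card S) (hS.trans t2)
  constructor
  · intro K L P out hacc hm hl hK
    refine lt_of_le_of_lt t3 (hfew F (Fin (2 * h + pad)) Br (Fin (2 * h)) h K L P
      (Fin.castAdd pad) out (fun D => D.card) (Fintype.card_fin _) (by omega) ?_ ?_
      (hK.trans t1) fun Y hY => full hF P out hacc Y hY)
    · intro t ht d a b hP i _ hi
      exact hm t ht d a b hP i trivial hi
    · intro t ht d S g hP
      exact hle S (hl t ht d S g hP)
  · intro K L P out hacc hm hl hb hK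
    refine lt_of_le_of_lt t4 (hfewS F (Fin (2 * h + pad)) Br (Fin (2 * h)) h K L P
      (Fin.castAdd pad) out (fun D => D.card) (Fintype.card_fin _) (by omega) ?_ ?_ ?_
      (hK.trans t1) fun Y hY => full hF P out hacc Y hY)
    · intro t ht d a b hP i _ hi
      exact hm t ht d a b hP i trivial hi
    · intro t ht d S g hP
      exact hle S (hl t ht d S g hP)
    · intro t ht d a b hP
      exact (hb t ht d a b hP).imp (hle _) (hle _)

/-- **Matching brackets needs many registers or many steps**, over each field, and over each
commutative semiring without zero divisors in which `a + b = 0` holds only for `a = b = 0` (the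
natural numbers, `min` and `+`). -/
theorem result (ε : ℝ) (hε : 0 < ε) (hε1 : ε ≤ 1 / 2) : ∃ n₀ : ℕ, ∀ n ≥ n₀,
    (∀ (F : Type) [Field F], Hard F ε n ∧ HardSkew F ε n) ∧
    (∀ (F : Type) [CommSemiring F] [NoZeroDivisors F], (∀ a b : F, a + b = 0 → a = 0) →
      Hard F ε n ∧ HardSkew F ε n) := by
  obtain ⟨n₀, hn⟩ := law ε hε hε1
  exact ⟨n₀, fun n h => ⟨fun F _ => hn n h F (faithful_field F),
    fun F _ _ hF => hn n h F (faithful_pos F hF)⟩⟩

end Pool.Agent.Results.MP_9277c3_lc.BracketsFewRegisters
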