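import Pool.Agent.TH706.SK.Asym
import Pool.Agent.TH706.SK.Main
import Pool.Agent.Results.MP_5afa16_lc.WeightedWordsRegisters

/-!
# A stack does not help to find the cheapest word of a context-free language

Let `A` be a language over a finite alphabet `Γ`. For weights `w (i, a)` of the letters `a` at the
positions `i` of a word of length `n` the weight of the cheapest word of length `n` in `A` is asked
for (`wordSum`, over the tropical semiring). This is the weighted form of membership in a
context-free language: with weights 0 and 1 it tells whether some word of `A` is built of allowed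
letters, which is as general as membership in the hardest context-free language of Greibach. For
context-free languages the program of Cocke, Younger and Kasami solves it with `O(n ^ 2)` registers
and `O(n ^ 3)` steps.

Programs compute step by step with `K` registers, which hold real numbers or infinity, using the
operations `min` and `+`, and they have, in addition, a pushdown store of unlimited height: a step may
also put the contents of a register on the stack, or remove the top of the stack and put it into a
register. Machines with logarithmic memory and such a stack accept in polynomial time the languages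
which are logspace reducible to deterministic context-free languages.

We show that with the stack, too, a quadratic number of registers is necessary: there is one
context-free language, accepted by a real-time one-way deterministic pushdown automaton, such that
programs with at most `n ^ (2 - ε)` registers and a stack have at least `n ^ Ω(log n)` steps, for each
fixed `ε > 0`. The same holds for programs over the nonnegative real numbers with `+` and `*`, for the
sum over all words of length `n` in the language of the products of the weights of their letters.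

Proof: the stack is eliminated (`Pool.Agent.TH706.SK.simulate`; an analogue of the theorem of Cook
on deterministic context-free languages in the question): `K (⌈log₂ (L + 1)⌉ + 1) ^ 2` registers and
`(48 K + 16) L ^ 3` steps are enough without the stack. The bound for programs without a stack is
helper679's (`MP_5afa16_lc.WeightedWordsRegisters`).
-/

set_option autoImplicit false

namespace Pool.Agent.Results.MP_9277c3_lc.CheapestWordsWithStack

open Filter
open Pool.Agent.TH706.SK
open Pool.Agent.TH679.CF
open Pool.Agent.H564R3.PW (Instr exec)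
open Pool.Agent.H561R2.CF (RDPDA)
open scoped NNReal

/-- The (min,+) program `p` with a stack, whose constants are real numbers or infinity, writes into
register `o` the weight of the cheapest word of length `n` of the language, for all weights in the
natural numbers. -/
def StackWordsMin {Γ : Type} [Fintype Γ] (A : Language Γ) (n : ℕ) {ρ : Type} [DecidableEq ρ]
    (p : List (SInstr (Tropical (WithTop ℝ)) (Fin n × Γ) ρ)) (o : ρ) : Prop :=
  ∀ w : Fin n × Γ → ℕ,
    sexec (fun x => Tropical.trop (((w x : ℕ) : ℝ) : WithTop ℝ)) p o =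
      wordSum A n (fun x => Tropical.trop (((w x : ℕ) : ℝ) : WithTop ℝ))

/-- The program `p` with a stack over the nonnegative reals computes the sum over all words of length
`n` of the language of the products of the weights of their letters. -/
def StackWordsSum {Γ : Type} [Fintype Γ] (A : Language Γ) (n : ℕ) {ρ : Type} [DecidableEq ρ]
    (p : List (SInstr ℝ≥0 (Fin n × Γ) ρ)) (o : ρ) : Prop :=
  ∀ w : Fin n × Γ → ℝ≥0, sexec w p o = wordSum A n w

theorem lt_pow_clog (L : ℕ) : L < 2 ^ Nat.clog 2 (L + 1) := by
  have := Nat.le_pow_clog (b := 2) (by norm_num) (L + 1)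
  omega

theorem card_eq (ρ : Type) [Fintype ρ] (m : ℕ) :
    Fintype.card (ρ × Fin (m ^ 2)) = Fintype.card ρ * m ^ 2 := by
  rw [Fintype.card_prod, Fintype.card_fin]

/-- the law, with a larger number of steps -/
theorem law_mono {a κ l l' K : ℕ} (h : a ≤ 2 * l * ((Nat.clog 2 l + 1) * K) ^ κ) (hl : l ≤ l') :
    a ≤ 2 * l' * ((Nat.clog 2 l' + 1) * K) ^ κ := by
  refine h.trans ?_
  have h4 : Nat.clog 2 l ≤ Nat.clog 2 l' := Nat.clog_mono_right 2 hl
  exact Nat.mul_le_mul (Nat.mul_le_mul_left _ hl)
    (Nat.pow_le_pow_left (Nat.mul_le_mul_right _ (by omega)) _)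

/-- the transfer of the asymptotic form: `l` steps without a stack -/
theorem asym_transfer {ε c : ℝ} (hε : 0 < ε) (hc : 0 < c) :
    ∀ᶠ n : ℕ in atTop, ∀ K L l K' : ℕ, 1 ≤ K → (K : ℝ) ≤ (n : ℝ) ^ (2 - ε) →
      K' = K * (Nat.clog 2 (L + 1) + 1) ^ 2 → l ≤ (48 * K + 16) * L ^ 3 →
      ((K' : ℝ) ≤ (n : ℝ) ^ (2 - ε / 2) → (n : ℝ) ^ (c * Real.logb 2 n) ≤ l) →
      (n : ℝ) ^ (c / 8 * Real.logb 2 n) ≤ L := by
  obtain ⟨y₀, hy₀⟩ := transfer (δ := ε / 4) (c := c / 4) (by positivity) (by positivity)
  have hlarge : ∀ᶠ n : ℕ in atTop, (2 : ℝ) ^ (max y₀ 1) ≤ (n : ℝ) :=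
    tendsto_natCast_atTop_atTop.eventually_ge_atTop _
  filter_upwards [hlarge, eventually_ge_atTop 2] with n hn hn2 K L l K' hK1 hK hK' hl hcon
  have hn0 : (0 : ℝ) < n := by
    have : 0 < n := by omega
    exact_mod_cast this
  have hn1 : (1 : ℝ) ≤ n := by
    have : 1 ≤ n := by omega
    exact_mod_cast this
  have hlog : max y₀ 1 ≤ Real.logb 2 n := by
    rw [Real.le_logb_iff_rpow_le (by norm_num) hn0]
    exact hn
  by_contra hlt
  push Not at hlt
  have hN : Real.logb 2 ((n : ℝ) ^ 2) = 2 * Real.logb 2 n := by
    rw [Real.logb_pow]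
    norm_num
  have hpow : ∀ x : ℝ, ((n : ℝ) ^ 2) ^ x = (n : ℝ) ^ (2 * x) := by
    intro x
    rw [← Real.rpow_natCast, ← Real.rpow_mul hn0.le]
    norm_num
  obtain ⟨g1, g2⟩ := hy₀ ((n : ℝ) ^ 2) (by positivity) (by
    rw [hN]
    have h1 := (le_max_left y₀ 1).trans hlog
    have h2 := (le_max_right y₀ 1).trans hlog
    linarith) K L hK1 (by
      refine hK.trans ?_
      rw [← Real.rpow_natCast]
      exact Real.rpow_le_rpow_of_exponent_le hn1 (by push_cast; linarith)) (by
      refine hlt.trans_le ?_
      rw [hpow, hN]
      apply Real.rpow_le_rpow_of_exponent_le hn1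
      have : 0 ≤ Real.logb 2 n := Real.logb_nonneg (by norm_num) hn1
      nlinarith [mul_nonneg hc.le this])
  rw [hpow] at g1
  rw [hpow, hN] at g2
  have h3 : (K' : ℝ) ≤ (n : ℝ) ^ (2 - ε / 2) := by
    rw [hK']
    push_cast
    push_cast at g1
    calc (K : ℝ) * ((Nat.clog 2 (L + 1) : ℝ) + 1) ^ 2
        ≤ (n : ℝ) ^ (2 - ε) * (n : ℝ) ^ (2 * (ε / 4)) := by gcongr
      _ = (n : ℝ) ^ (2 - ε / 2) := by
          rw [← Real.rpow_add hn0]
          congr 1
          ring
  have h4 := hcon h3
  have h5 : (l : ℝ) ≤ (((48 * K + 16) * L ^ 3 : ℕ) : ℝ) := by exact_mod_cast hl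
  have h6 : 2 * (c / 4 * (2 * Real.logb 2 (n : ℝ))) = c * Real.logb 2 n := by ring
  rw [h6] at g2
  linarith

/-- There are a real-time deterministic pushdown automaton `M`, whose language is context-free, such
that

(1) if a program with the registers `ρ`, a stack and `L` steps computes the weight of the cheapest
word of length `n` of the language, for all weights in the natural numbers, or the sum over the words
of length `n` of the language of the products of the weights of their letters, for all nonnegative
real weights, and if `1100 * h ^ 3 * q * 2 ^ h ≤ n`, then with `κ = ⌈log₄ (q + 3)⌉ - 1`,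
`L' = (48 K + 16) L ^ 3` and `K' = K (⌈log₂ (L + 1)⌉ + 1) ^ 2`, `K` being the number of registers,
`(2 ^ (2 * h)) ^ κ ≤ 2 L' ((⌈log₂ L'⌉ + 1) K') ^ κ`;

(2) for each `ε` there is `c > 0` such that for all large `n` such programs with at most
`n ^ (2 - ε)` registers and a stack have at least `n ^ (c log₂ n)` steps. -/
theorem result :
    ∃ (Q S Γ : Type) (_ : Fintype Q) (_ : Fintype S) (_ : Fintype Γ) (M : RDPDA Q S Γ),
      M.language.IsContextFree ∧
      (∀ h q n : ℕ, 1 ≤ h → 1 ≤ q → 1100 * h ^ 3 * q * 2 ^ h ≤ n →
        ∀ (ρ : Type) [Fintype ρ] [DecidableEq ρ] (o : ρ) (L L' K' : ℕ),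
        L' = (48 * Fintype.card ρ + 16) * L ^ 3 →
        K' = Fintype.card ρ * (Nat.clog 2 (L + 1) + 1) ^ 2 →
        ((∃ p, StackWordsMin M.language n p o ∧ p.length = L) ∨
          ∃ p, StackWordsSum M.language n p o ∧ p.length = L) →
          (2 ^ (2 * h)) ^ (Nat.clog 4 (q + 3) - 1) ≤
            2 * L' * ((Nat.clog 2 L' + 1) * K') ^ (Nat.clog 4 (q + 3) - 1)) ∧
      (∀ ε : ℝ, 0 < ε → ε ≤ 1 → ∃ c : ℝ, 0 < c ∧ ∀ᶠ n : ℕ in atTop,
        ∀ (ρ : Type) [Fintype ρ] [DecidableEq ρ] (o : ρ),
          (Fintype.card ρ : ℝ) ≤ (n : ℝ) ^ (2 - ε) →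
          (∀ p, StackWordsMin M.language n p o → (n : ℝ) ^ (c * Real.logb 2 n) ≤ p.length) ∧
          (∀ p, StackWordsSum M.language n p o →
            (n : ℝ) ^ (c * Real.logb 2 n) ≤ p.length)) := by
  obtain ⟨Q, S, Γ, i1, i2, i3, M, hcf, hlaw, hasym⟩ :=
    Pool.Agent.Results.MP_5afa16_lc.WeightedWordsRegisters.result
  refine ⟨Q, S, Γ, i1, i2, i3, M, hcf, ?_, ?_⟩
  · intro h q n hh hq hn ρ _ _ o L L' K' hL' hK' hp
    rcases hp with ⟨p, hp, rfl⟩ | ⟨p, hp, rfl⟩
    · obtain ⟨r, h1, z, h2⟩ := simulate p _ (lt_pow_clog p.length)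
      have h3 := ((hlaw h q n hh hq hn _ (o, z)).1 r (fun w => by rw [h2]; exact hp w)).2
      rw [card_eq, ← hK'] at h3
      rw [← hL'] at h1
      exact law_mono h3 h1
    · obtain ⟨r, h1, z, h2⟩ := simulate p _ (lt_pow_clog p.length)
      have h3 := ((hlaw h q n hh hq hn _ (o, z)).2 r (fun w => by rw [h2]; exact hp w)).2
      rw [card_eq, ← hK'] at h3
      rw [← hL'] at h1
      exact law_mono h3 h1
  · intro ε hε hε1
    obtain ⟨c, hc, hev⟩ := hasym (ε / 2) (by positivity) (by linarith)
    refine ⟨c / 8, by positivity, ?_⟩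
    filter_upwards [hev, asym_transfer hε hc] with n h1 h2 ρ _ _ o hK
    have hK1 : 1 ≤ Fintype.card ρ := Fintype.card_pos_iff.2 ⟨o⟩
    refine ⟨fun p hp => ?_, fun p hp => ?_⟩
    · obtain ⟨r, h3, z, h4⟩ := simulate p _ (lt_pow_clog p.length)
      refine h2 _ p.length r.length _ hK1 hK rfl h3 fun hK' => ?_
      refine (h1 _ (o, z) ?_).1 r (fun w => by rw [h4]; exact hp w)
      rw [card_eq]
      exact hK'
    · obtain ⟨r, h3, z, h4⟩ := simulate p _ (lt_pow_clog p.length)
      refine h2 _ p.length r.length _ hK1 hK rfl h3 fun hK' => ?_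
      refine (h1 _ (o, z) ?_).2 r (fun w => by rw [h4]; exact hp w)
      rw [card_eq]
      exact hK'

end Pool.Agent.Results.MP_9277c3_lc.CheapestWordsWithStack
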