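import Pool.Agent.TH457.HT.LinR

/-!
# Randomized machines with slow heads and a linear context-free language

One linear context-free language `L` over the bits and a separator such that randomized nonuniform
programs with `k` two-way heads, with error probability at most `1 / 20000` on both sides, with at
most `2 ^ S` configurations and with at most `T` steps, which decide `L` for the words of length
`n`, satisfy `(k T + n) ^ 2 * k * (S + 1) * (log n + 1) ≥ n ^ 3 / 3000000`.

Proof. The grammar generates the words `α # u # β # u' # γ` with `u'` the reversal of the nonempty
word `u`.  The inputs are words of blocks `# v v' #` with random numbers `v`; such a word is in `L`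
iff two numbers are equal.  The word is divided into `D` zones of `d` blocks, the computation into
windows whose number of steps is the length of a zone.  For most pairs `a`, `b` of zones no window
touches both and few windows touch `b`.  A canonical transcript records the configurations in which
a head enters `b` for the first time, then `a`, then `b` again and so on.  For a deterministic
program the inputs with a given transcript and given numbers outside `a` and `b` form a rectangle,
and different rectangles are disjoint.  If a random number of `b` is replaced by a random number of
`a`, a rectangle `A × B` which is not exponentially small is still hit with probability at least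
`1 / 2048` times its measure: for most places the values of the members of `A` (of `B`) are spread
over more than `5 / 8` of all numbers.  So a program which accepts many families of distinct numbers
accepts many families with a collision as well, unless there are `2 ^ (c d)` transcripts.
-/

set_option autoImplicit false

namespace Pool.Agent.Results.MP_9277c3_lc.RandomizedHeads

open Pool.Agent.TH457.HT

open Classical in
/-- There is a linear context-free grammar `G` such that the following holds for all random
programs with `k ≥ 1` two-way heads for words of length `n` and with at most `2 ^ S`
configurations: if for each word the right answer to the question whether it belongs to the language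
of `G` is given within `T` steps with probability at least `1 - 1 / 20000`, then
`n ^ 3 ≤ 3000000 * k * (S + 1) * (log₂ n + 1) * (k * T + n) ^ 2`. -/
theorem result : ∃ G : LinGrammar (Option Bool),
    ∀ (n k T S : ℕ) (Ω : Type) [Fintype Ω] (p : Ω → ℝ) (P : Ω → DetProg (Option Bool) n k),
      (∀ ω, 0 ≤ p ω) → ∑ ω, p ω = 1 → 1 ≤ k →
      (∀ ω, Fintype.card (P ω).Q * n ^ k ≤ 2 ^ S) →
      (∀ x : Fin n → Option Bool,
        1 - 1 / 20000 ≤ prob p P T x (decide (List.ofFn x ∈ G.language))) →
      n ^ 3 ≤ 3000000 * (k * (S + 1) * (Nat.log 2 n + 1) * (k * T + n) ^ 2) :=
  ⟨gram, fun _ _ T S _ _ p P hp hp1 hk hS h => lin_rand p hp hp1 P T S hk hS h⟩

end Pool.Agent.Results.MP_9277c3_lc.RandomizedHeads
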